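import Pool.Agent.Q119.TL.Stack

/-!
MP_d0305a_co: equilateral triangles tiled by the triangle `(a, b, c)` with a 120 degree angle.
The threshold `M(a,b,c) = 3⌈(c² - a - b)/(ab)⌉` is not sharp: for the tile `(32, 45, 67)` it is
`12`, but the equilateral triangle of side `9 · 32 · 45` is tiled by `9² · 32 · 45` copies.
-/

namespace Pool.Agent.Results.MP_d0305a_co.BoundNotSharp

open Set

/-- the closed triangle with vertices `A`, `B`, `C` in the Euclidean plane `ℂ` -/
def tri (A B C : ℂ) : Set ℂ := convexHull ℝ {A, B, C}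

/-- `N` triangles with sides `a, b, c` (reflections allowed) tile the triangle `P Q S`: their
union is `P Q S` and their interiors are pairwise disjoint -/
def TilesInto (a b c : ℝ) (P Q S : ℂ) (N : ℕ) : Prop :=
  ∃ A B C : Fin N → ℂ,
    (∀ i, dist (B i) (C i) = a ∧ dist (C i) (A i) = b ∧ dist (A i) (B i) = c) ∧
    (⋃ i, tri (A i) (B i) (C i)) = tri P Q S ∧
    ∀ i j, i ≠ j → Disjoint (interior (tri (A i) (B i) (C i))) (interior (tri (A j) (B j) (C j)))

/-- an equilateral triangle of side `X` tiles into `N` copies of the triangle `(a, b, c)` -/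
def EquilateralTiles (a b c : ℕ) (X : ℝ) (N : ℕ) : Prop :=
  ∃ P Q S : ℂ, dist P Q = X ∧ dist Q S = X ∧ dist S P = X ∧ TilesInto a b c P Q S N

/-- the numbers `N` for which some (non-degenerate) equilateral triangle tiles into `N` copies -/
def tileNumbers (a b c : ℕ) : Set ℕ := {N | ∃ X : ℝ, 0 < X ∧ EquilateralTiles a b c X N}

/-- `M(a,b,c) = 3⌈(c² - a - b)/(ab)⌉` -/
noncomputable def M (a b c : ℕ) : ℤ := 3 * ⌈((c : ℝ) ^ 2 - a - b) / (a * b)⌉

/-- the set `{m² ab : m ∈ ℤ, m ≥ M(a,b,c)}` of Q1 -/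
def claimedSet (a b c : ℕ) : Set ℕ := {N | ∃ m : ℤ, M a b c ≤ m ∧ (N : ℤ) = m ^ 2 * a * b}

/-- the tiles of the problem: pairwise coprime positive integers with `c² = a² + b² + ab` (so the
angle opposite `c` is `2π/3`) whose other two angles are not both rational multiples of `π` -/
structure IsTile (a b c : ℕ) : Prop where
  a_pos : 0 < a
  b_pos : 0 < b
  c_pos : 0 < c
  coprime_ab : Nat.Coprime a b
  coprime_ac : Nat.Coprime a c
  coprime_bc : Nat.Coprime b c
  law : c ^ 2 = a ^ 2 + b ^ 2 + a * b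
  incommensurable :
    ¬ ((∃ r : ℚ, Real.arccos (((b : ℝ) ^ 2 + c ^ 2 - a ^ 2) / (2 * b * c)) = r * Real.pi) ∧
      (∃ r : ℚ, Real.arccos (((a : ℝ) ^ 2 + c ^ 2 - b ^ 2) / (2 * a * c)) = r * Real.pi))

/-! ### Transport to `ℂ` -/

open Q119.TL in
noncomputable def phiL : (ℝ × ℝ) ≃ₗ[ℝ] ℂ where
  toFun p := ⟨p.1 + p.2 / 2, p.2 * (Real.sqrt 3 / 2)⟩
  invFun z := (z.re - z.im / Real.sqrt 3, 2 * z.im / Real.sqrt 3)
  map_add' p q := by
    apply Complex.ext <;> simp <;> ring
  map_smul' r p := by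
    apply Complex.ext <;> simp <;> ring
  left_inv p := by
    have h3 : Real.sqrt 3 ≠ 0 := by positivity
    ext
    · simp only
      field_simp
      ring
    · simp only
      field_simp
  right_inv z := by
    have h3 : Real.sqrt 3 ≠ 0 := by positivity
    apply Complex.ext
    · simp only
      field_simp
      ring
    · simp only
      field_simp

lemma dist_phi (p q : ℝ × ℝ) (r : ℝ) (hr : 0 ≤ r) (h : Q119.TL.nf (p - q) = r ^ 2) :
    dist (phiL p) (phiL q) = r := by
  rw [dist_eq_norm, ← map_sub]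
  have h2 : ‖phiL (p - q)‖ ^ 2 = r ^ 2 := by
    rw [← h, Complex.sq_norm, Complex.normSq_apply]
    have h3 : Real.sqrt 3 * Real.sqrt 3 = 3 := Real.mul_self_sqrt (by norm_num)
    have : (phiL (p - q)).re = (p - q).1 + (p - q).2 / 2 := rfl
    rw [this]
    have : (phiL (p - q)).im = (p - q).2 * (Real.sqrt 3 / 2) := rfl
    rw [this]
    unfold Q119.TL.nf
    linear_combination ((p - q).2 ^ 2 / 4) * h3
  have := sq_eq_sq₀ (norm_nonneg (phiL (p - q))) hr
  exact this.1 h2

lemma disjoint_interior_of_sep {S T : Set ℂ} (h : Q119.TL.Sep S T) :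
    Disjoint (interior S) (interior T) := by
  obtain ⟨f, κ, hf, h1, h2⟩ := h
  rw [Set.disjoint_left]
  intro z hz1 hz2
  have hfz : f z = κ := le_antisymm (h1 z (interior_subset hz1)) (h2 z (interior_subset hz2))
  obtain ⟨v, hv⟩ : ∃ v, f v ≠ 0 := by
    by_contra hcon
    push Not at hcon
    exact hf (LinearMap.ext hcon)
  -- move in direction v
  have hcont : Filter.Tendsto (fun t : ℝ => z + t • v) (nhds 0) (nhds z) := by
    have : Continuous (fun t : ℝ => z + t • v) := by fun_prop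
    simpa using this.tendsto 0
  have hS : ∀ᶠ t in nhds (0 : ℝ), z + t • v ∈ interior S :=
    hcont.eventually (isOpen_interior.mem_nhds hz1)
  obtain ⟨ε, hε, hball⟩ := Metric.eventually_nhds_iff.1 hS
  have key : ∀ t : ℝ, |t| < ε → f z + t * f v ≤ κ := by
    intro t ht
    have := h1 _ (interior_subset (hball (by simpa [Real.dist_eq] using ht)))
    rw [map_add, map_smul, smul_eq_mul] at this
    exact this
  have e1 := key (ε / 2) (by rw [abs_of_pos (by linarith)]; linarith)
  have e2 := key (-(ε / 2)) (by rw [abs_neg, abs_of_pos (by linarith)]; linarith)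
  rw [hfz] at e1 e2
  apply hv
  have : ε / 2 * f v = 0 := by linarith
  rcases mul_eq_zero.1 this with h | h
  · linarith
  · exact h

lemma tri_region (L : ℝ) (hL : 0 ≤ L) :
    {p : ℝ × ℝ | 0 ≤ p.1 ∧ 0 ≤ p.2 ∧ p.1 + p.2 ≤ L} =
      Q119.TL.tri ((0, 0) : ℝ × ℝ) (L, 0) (0, L) := by
  ext ⟨x, y⟩
  rw [Q119.TL.mem_tri]
  simp only [mem_ofPred_eq, Prod.smul_mk, Prod.mk_add_mk, Prod.mk.injEq, smul_eq_mul]
  constructor
  · rintro ⟨h1, h2, h3⟩
    rcases hL.eq_or_lt with h | h
    · refine ⟨1, 0, 0, by norm_num, le_rfl, le_rfl, by norm_num, ?_, ?_⟩ <;> rw [← h] <;> linarith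
    · refine ⟨1 - x / L - y / L, x / L, y / L, ?_, by positivity, by positivity, by ring, ?_, ?_⟩
      · have : (x + y) / L ≤ 1 := by rw [div_le_one h]; exact h3
        rw [add_div] at this
        linarith
      · field_simp; ring
      · field_simp; ring
  · rintro ⟨s, t, w, hs, ht, hw, h1, h2, h3⟩
    rw [h2, h3]
    refine ⟨by nlinarith, by nlinarith, ?_⟩
    have : (t + w) * L ≤ 1 * L := mul_le_mul_of_nonneg_right (by linarith) hL
    linarith

/-- the tilings in `ℝ × ℝ` with the form `x² + xy + y²` give tilings in `ℂ` -/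
lemma transport (a b c : ℕ) (L : ℝ) (hL : 0 ≤ L) (N : ℕ)
    (h : Q119.TL.TR (Q119.TL.cpV a b c) {p | 0 ≤ p.1 ∧ 0 ≤ p.2 ∧ p.1 + p.2 ≤ L} N) :
    EquilateralTiles a b c L N := by
  refine ⟨phiL (0, 0), phiL (L, 0), phiL (0, L), ?_, ?_, ?_, ?_⟩
  · apply dist_phi _ _ _ hL; simp [Q119.TL.nf]
  · apply dist_phi _ _ _ hL; simp [Q119.TL.nf]; ring
  · apply dist_phi _ _ _ hL; simp [Q119.TL.nf]
  · obtain ⟨ι, i1, A, B, C, hcard, hcp, hU, hsep⟩ := h
    let e : Fin N ≃ ι := (Fintype.equivFinOfCardEq hcard).symm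
    have hmap : ∀ X Y Z : ℝ × ℝ, phiL '' Q119.TL.tri X Y Z = tri (phiL X) (phiL Y) (phiL Z) := by
      intro X Y Z
      exact Q119.TL.tri_map phiL.toAffineEquiv X Y Z
    refine ⟨fun i => phiL (A (e i)), fun i => phiL (B (e i)), fun i => phiL (C (e i)), ?_, ?_, ?_⟩
    · intro i
      obtain ⟨h1, h2, h3⟩ := hcp (e i)
      exact ⟨dist_phi _ _ _ (by positivity) h1, dist_phi _ _ _ (by positivity) h2,
        dist_phi _ _ _ (by positivity) h3⟩
    · simp only [← hmap]
      rw [← image_iUnion, e.surjective.iUnion_comp (fun i => Q119.TL.tri (A i) (B i) (C i)), hU,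
        tri_region L hL]
    · intro i j hij
      have h1 := (hsep (e i) (e j) (fun h => hij (e.injective h))).map phiL.toAffineEquiv
      have h2 := disjoint_interior_of_sep h1
      simp only [← hmap]
      exact h2

/-! ### The results -/

lemma attained (a b c k m : ℕ) (ha : 0 < a) (hb : 0 < b) (hl : c ^ 2 = a ^ 2 + b ^ 2 + a * b)
    (hab : a ≤ b) (hk : b ≤ k * a) (hm : 3 * (k + 1) ≤ m) :
    EquilateralTiles a b c (m * a * b : ℕ) (m ^ 2 * a * b) := by
  have hc : 0 < c := by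
    rcases Nat.eq_zero_or_pos c with h | h
    · subst h
      have : 0 < a ^ 2 := by positivity
      omega
    · exact h
  obtain ⟨N, h1, h2⟩ := Q119.TL.equi a b c ha hb hc hl k hab hk m hm
  have hN : N = m ^ 2 * a * b := by
    have hab' : (a : ℝ) * b ≠ 0 := by positivity
    have h3 : (N : ℝ) = ((m ^ 2 * a * b : ℕ) : ℝ) := by
      apply mul_right_cancel₀ hab'
      rw [h2]
      push_cast
      ring
    exact_mod_cast h3
  have h3 := transport a b c (m * ((a : ℝ) * b)) (by positivity) N h1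
  rw [hN] at h3
  have e : ((m * a * b : ℕ) : ℝ) = m * ((a : ℝ) * b) := by push_cast; ring
  rw [e]
  exact h3

lemma not_sharp (a b c k : ℕ) (ha : 0 < a) (hb : 0 < b) (hl : c ^ 2 = a ^ 2 + b ^ 2 + a * b)
    (hab : a ≤ b) (hk : b ≤ k * a) (hlt : (k + 1) * a * b + a + b < c ^ 2) :
    3 * ((k : ℤ) + 1) < M a b c ∧ (3 * (k + 1)) ^ 2 * a * b ∈ tileNumbers a b c ∧
      (3 * (k + 1)) ^ 2 * a * b ∉ claimedSet a b c := by
  have hM : 3 * ((k : ℤ) + 1) < M a b c := by
    have h1 : (k : ℤ) + 1 < ⌈((c : ℝ) ^ 2 - a - b) / (a * b)⌉ := by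
      rw [Int.lt_ceil]
      have ha' : (0 : ℝ) < a := by exact_mod_cast ha
      have hb' : (0 : ℝ) < b := by exact_mod_cast hb
      rw [lt_div_iff₀ (by positivity)]
      have : ((k : ℝ) + 1) * a * b + a + b < c ^ 2 := by exact_mod_cast hlt
      push_cast
      linarith
    unfold M
    linarith
  refine ⟨hM, ?_, ?_⟩
  · have h := attained a b c k (3 * (k + 1)) ha hb hl hab hk le_rfl
    exact ⟨_, by positivity, h⟩
  · rintro ⟨m, hm, he⟩
    push_cast at he
    have hab0 : (0 : ℤ) < a * b := by positivity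
    have h1 : (3 * ((k : ℤ) + 1)) ^ 2 = m ^ 2 := by
      apply mul_right_cancel₀ hab0.ne'
      linarith
    have h2 : 3 * ((k : ℤ) + 1) < m := lt_of_lt_of_le hM hm
    have h3 : (0 : ℤ) ≤ 3 * ((k : ℤ) + 1) := by positivity
    nlinarith

lemma tile_32_45_67 : IsTile 32 45 67 where
  a_pos := by norm_num
  b_pos := by norm_num
  c_pos := by norm_num
  coprime_ab := by norm_num
  coprime_ac := by norm_num
  coprime_bc := by norm_num
  law := by norm_num
  incommensurable := by
    rintro ⟨h, _⟩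
    have e : (((45 : ℕ) : ℝ) ^ 2 + ((67 : ℕ) : ℝ) ^ 2 - ((32 : ℕ) : ℝ) ^ 2) /
        (2 * ((45 : ℕ) : ℝ) * ((67 : ℕ) : ℝ)) = 61 / 67 := by norm_num
    rw [e] at h
    have hcos : Real.cos (Real.arccos (61 / 67)) = 61 / 67 :=
      Real.cos_arccos (by norm_num) (by norm_num)
    have := niven h ⟨61 / 67, by rw [hcos]; push_cast; norm_num⟩
    rw [hcos] at this
    simp only [mem_insert_iff, mem_singleton_iff] at this
    norm_num at this

/-- (1) For every tile and every `k` with `a ≤ b ≤ ka`, the side `m ab` is equiconstructible (with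
`m² ab` tiles) for all `m ≥ 3(k+1)`. (2) If moreover `(k+1)ab < c² - a - b`, then
`3(k+1) < M(a,b,c)`, so the set of attained `N` is not the set of Q1. (3) Q1 is false; the tile
`(32, 45, 67)` is a counterexample: the equilateral triangle of side `12960` tiles into
`116640 = 9² · 32 · 45` copies, while `M = 12`. -/
theorem result :
    (∀ a b c k m : ℕ, 0 < a → 0 < b → c ^ 2 = a ^ 2 + b ^ 2 + a * b → a ≤ b → b ≤ k * a →
      3 * (k + 1) ≤ m → EquilateralTiles a b c (m * a * b : ℕ) (m ^ 2 * a * b)) ∧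
    (∀ a b c k : ℕ, IsTile a b c → a ≤ b → b ≤ k * a → (k + 1) * a * b + a + b < c ^ 2 →
      3 * ((k : ℤ) + 1) < M a b c ∧ (3 * (k + 1)) ^ 2 * a * b ∈ tileNumbers a b c ∧
        (3 * (k + 1)) ^ 2 * a * b ∉ claimedSet a b c) ∧
    (IsTile 32 45 67 ∧ M 32 45 67 = 12 ∧ EquilateralTiles 32 45 67 12960 116640) ∧
    ¬ ∀ a b c : ℕ, IsTile a b c → tileNumbers a b c = claimedSet a b c := by
  refine ⟨fun a b c k m => attained a b c k m, fun a b c k h => not_sharp a b c k h.a_pos h.b_pos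
    h.law, ⟨tile_32_45_67, ?_, ?_⟩, ?_⟩
  · have : ⌈(((67 : ℕ) : ℝ) ^ 2 - ((32 : ℕ) : ℝ) - ((45 : ℕ) : ℝ)) /
        (((32 : ℕ) : ℝ) * ((45 : ℕ) : ℝ))⌉ = 4 := by
      rw [Int.ceil_eq_iff]
      constructor <;> norm_num
    unfold M
    rw [this]
    norm_num
  · have := attained 32 45 67 2 9 (by norm_num) (by norm_num) (by norm_num) (by norm_num)
      (by norm_num) (by norm_num)
    norm_num at this
    exact this
  · intro h
    have h1 := not_sharp 32 45 67 2 (by norm_num) (by norm_num) (by norm_num) (by norm_num)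
      (by norm_num) (by norm_num)
    rw [← h 32 45 67 tile_32_45_67] at h1
    exact h1.2.2 h1.2.1

end Pool.Agent.Results.MP_d0305a_co.BoundNotSharp
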